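import Mathlib

set_option autoImplicit false

namespace Pool.Agent.Results.MP_172a5c_ag.ModifiedKouchnirenkoFails

open MvPolynomial

/-- `p` is a simple (nondegenerate) real solution of the system `f = g = 0`: both polynomials
vanish at `p` and the Jacobian determinant of `(f, g)` does not vanish at `p`. -/
def IsSimpleSolution (f g : MvPolynomial (Fin 2) ℝ) (p : Fin 2 → ℝ) : Prop :=
  eval p f = 0 ∧ eval p g = 0 ∧
    eval p (pderiv 0 f) * eval p (pderiv 1 g) - eval p (pderiv 1 f) * eval p (pderiv 0 g) ≠ 0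

/-! ### The univariate function -/

noncomputable def G (w : ℝ) : ℝ :=
  w - 5 / 4 * w ^ 2 - 41 / 200 * (1 - 6 * w ^ 6 + 9 * w ^ 12 - 2 * w ^ 18)

noncomputable def dG (w : ℝ) : ℝ :=
  1 - 5 / 2 * w - 41 / 200 * (-36 * w ^ 5 + 108 * w ^ 11 - 36 * w ^ 17)

lemma G_cont : Continuous G := by unfold G; fun_prop

lemma dG_lower {a b w : ℝ} (ha : 0 ≤ a) (h1 : a ≤ w) (h2 : w ≤ b) :
    1 - 5 / 2 * b + 41 / 200 * (36 * a ^ 5 - 108 * b ^ 11 + 36 * a ^ 17) ≤ dG w := by
  have e1 : a ^ 5 ≤ w ^ 5 := pow_le_pow_left₀ ha h1 5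
  have e2 : w ^ 11 ≤ b ^ 11 := pow_le_pow_left₀ (ha.trans h1) h2 11
  have e3 : a ^ 17 ≤ w ^ 17 := pow_le_pow_left₀ ha h1 17
  unfold dG
  linarith

lemma dG_upper {a b w : ℝ} (ha : 0 ≤ a) (h1 : a ≤ w) (h2 : w ≤ b) :
    dG w ≤ 1 - 5 / 2 * a + 41 / 200 * (36 * b ^ 5 - 108 * a ^ 11 + 36 * b ^ 17) := by
  have e1 : w ^ 5 ≤ b ^ 5 := pow_le_pow_left₀ (ha.trans h1) h2 5
  have e2 : a ^ 11 ≤ w ^ 11 := pow_le_pow_left₀ ha h1 11
  have e3 : w ^ 17 ≤ b ^ 17 := pow_le_pow_left₀ (ha.trans h1) h2 17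
  unfold dG
  linarith

lemma root1 : ∃ w : ℝ, 7 / 20 ≤ w ∧ w ≤ 2 / 5 ∧ G w = 0 ∧ dG w ≠ 0 := by
  have h := intermediate_value_Icc (show (7 / 20 : ℝ) ≤ 2 / 5 by norm_num) G_cont.continuousOn
  have h0 : (0 : ℝ) ∈ Set.Icc (G (7 / 20)) (G (2 / 5)) := by
    constructor <;> norm_num [G]
  obtain ⟨w, ⟨hw1, hw2⟩, hw⟩ := h h0
  refine ⟨w, hw1, hw2, hw, ne_of_gt (lt_of_lt_of_le ?_ (dG_lower (by norm_num) hw1 hw2))⟩
  norm_num

lemma root2 : ∃ w : ℝ, 53 / 100 ≤ w ∧ w ≤ 27 / 50 ∧ G w = 0 ∧ dG w ≠ 0 := by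
  have h := intermediate_value_Icc' (show (53 / 100 : ℝ) ≤ 27 / 50 by norm_num)
    G_cont.continuousOn
  have h0 : (0 : ℝ) ∈ Set.Icc (G (27 / 50)) (G (53 / 100)) := by
    constructor <;> norm_num [G]
  obtain ⟨w, ⟨hw1, hw2⟩, hw⟩ := h h0
  refine ⟨w, hw1, hw2, hw, ne_of_lt (lt_of_le_of_lt (dG_upper (by norm_num) hw1 hw2) ?_)⟩
  norm_num

lemma root3 : ∃ w : ℝ, 33 / 50 ≤ w ∧ w ≤ 133 / 200 ∧ G w = 0 ∧ dG w ≠ 0 := by
  have h := intermediate_value_Icc (show (33 / 50 : ℝ) ≤ 133 / 200 by norm_num)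
    G_cont.continuousOn
  have h0 : (0 : ℝ) ∈ Set.Icc (G (33 / 50)) (G (133 / 200)) := by
    constructor <;> norm_num [G]
  obtain ⟨w, ⟨hw1, hw2⟩, hw⟩ := h h0
  refine ⟨w, hw1, hw2, hw, ne_of_gt (lt_of_lt_of_le ?_ (dG_lower (by norm_num) hw1 hw2))⟩
  norm_num

lemma root4 : ∃ w : ℝ, 79 / 100 ≤ w ∧ w ≤ 1587 / 2000 ∧ G w = 0 ∧ dG w ≠ 0 := by
  have h := intermediate_value_Icc' (show (79 / 100 : ℝ) ≤ 1587 / 2000 by norm_num)
    G_cont.continuousOn
  have h0 : (0 : ℝ) ∈ Set.Icc (G (1587 / 2000)) (G (79 / 100)) := by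
    constructor <;> norm_num [G]
  obtain ⟨w, ⟨hw1, hw2⟩, hw⟩ := h h0
  refine ⟨w, hw1, hw2, hw, ne_of_lt (lt_of_le_of_lt (dG_upper (by norm_num) hw1 hw2) ?_)⟩
  norm_num

/-- Four different positive zeros of `G`, all simple, with sixth power below `1 / 4`. -/
lemma four_roots : ∃ W : Fin 4 → ℝ, Function.Injective W ∧
    ∀ i, 0 < W i ∧ W i ^ 6 < 1 / 4 ∧ G (W i) = 0 ∧ dG (W i) ≠ 0 := by
  obtain ⟨a, a1, a2, a3, a4⟩ := root1
  obtain ⟨b, b1, b2, b3, b4⟩ := root2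
  obtain ⟨c, c1, c2, c3, c4⟩ := root3
  obtain ⟨d, d1, d2, d3, d4⟩ := root4
  have key : ∀ w : ℝ, 0 < w → w ≤ 1587 / 2000 → w ^ 6 < 1 / 4 := by
    intro w h1 h2
    have := pow_le_pow_left₀ h1.le h2 6
    refine lt_of_le_of_lt this ?_
    norm_num
  refine ⟨![a, b, c, d], ?_, ?_⟩
  · have hm : StrictMono ![a, b, c, d] := by
      rw [Fin.strictMono_iff_lt_succ]
      intro i
      fin_cases i
      · show a < b
        linarith
      · show b < c
        linarith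
      · show c < d
        linarith
    exact hm.injective
  · intro i
    fin_cases i
    · exact ⟨by show 0 < a; linarith, key a (by linarith) (by linarith), a3, a4⟩
    · exact ⟨by show 0 < b; linarith, key b (by linarith) (by linarith), b3, b4⟩
    · exact ⟨by show 0 < c; linarith, key c (by linarith) (by linarith), c3, c4⟩
    · exact ⟨by show 0 < d; linarith, key d (by linarith) (by linarith), d3, d4⟩

/-! ### The two polynomials -/

/-- The exponent vector `(a, b)`. -/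
noncomputable def e (a b : ℕ) : Fin 2 →₀ ℕ := Finsupp.single 0 a + Finsupp.single 1 b

lemma e_inj {a b c d : ℕ} (h : e a b = e c d) : a = c ∧ b = d := by
  have h0 := DFunLike.congr_fun h 0
  have h1 := DFunLike.congr_fun h 1
  simp [e] at h0 h1
  exact ⟨h0, h1⟩

lemma mono_eq (a b : ℕ) (r : ℝ) :
    (monomial (e a b) r : MvPolynomial (Fin 2) ℝ) = C r * X 0 ^ a * X 1 ^ b := by
  rw [e, monomial_single_add, ← C_mul_X_pow_eq_monomial]
  ring

/-- `x - x^71 - x^3 y^12`. -/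
noncomputable def f : MvPolynomial (Fin 2) ℝ :=
  monomial (e 1 0) 1 + monomial (e 71 0) (-1) + monomial (e 3 12) (-1)

/-- `y^3 - (5/4) x^12 y^5 - (41/200) x^408 y - (41/200) y^73`. -/
noncomputable def g : MvPolynomial (Fin 2) ℝ :=
  monomial (e 0 3) 1 + monomial (e 12 5) (-5 / 4) + monomial (e 408 1) (-41 / 200) +
    monomial (e 0 73) (-41 / 200)

lemma f_support : f.support.card = 3 := by
  have : f.support = {e 1 0, e 71 0, e 3 12} := by
    ext m
    rw [mem_support_iff]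
    simp only [f, coeff_add, coeff_monomial, Finset.mem_insert, Finset.mem_singleton]
    constructor
    · intro h
      by_contra hc
      push Not at hc
      obtain ⟨h1, h2, h3⟩ := hc
      apply h
      rw [if_neg (Ne.symm h1), if_neg (Ne.symm h2), if_neg (Ne.symm h3)]
      norm_num
    · rintro (h | h | h) <;> subst h
      · rw [if_pos rfl, if_neg (fun h => by simpa using (e_inj h).1),
          if_neg (fun h => by simpa using (e_inj h).1)]
        norm_num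
      · rw [if_neg (fun h => by simpa using (e_inj h).1), if_pos rfl,
          if_neg (fun h => by simpa using (e_inj h).1)]
        norm_num
      · rw [if_neg (fun h => by simpa using (e_inj h).1),
          if_neg (fun h => by simpa using (e_inj h).1), if_pos rfl]
        norm_num
  rw [this]
  rw [Finset.card_insert_of_notMem, Finset.card_insert_of_notMem, Finset.card_singleton]
  · rw [Finset.mem_singleton]
    exact fun h => by simpa using (e_inj h).1
  · rw [Finset.mem_insert, Finset.mem_singleton]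
    rintro (h | h)
    · simpa using (e_inj h).1
    · simpa using (e_inj h).1

lemma g_support : g.support.card = 4 := by
  have : g.support = {e 0 3, e 12 5, e 408 1, e 0 73} := by
    ext m
    rw [mem_support_iff]
    simp only [g, coeff_add, coeff_monomial, Finset.mem_insert, Finset.mem_singleton]
    constructor
    · intro h
      by_contra hc
      push Not at hc
      obtain ⟨h1, h2, h3, h4⟩ := hc
      apply h
      rw [if_neg (Ne.symm h1), if_neg (Ne.symm h2), if_neg (Ne.symm h3), if_neg (Ne.symm h4)]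
      norm_num
    · rintro (h | h | h | h) <;> subst h
      · rw [if_pos rfl, if_neg (fun h => by simpa using (e_inj h).2),
          if_neg (fun h => by simpa using (e_inj h).2),
          if_neg (fun h => by simpa using (e_inj h).2)]
        norm_num
      · rw [if_neg (fun h => by simpa using (e_inj h).2), if_pos rfl,
          if_neg (fun h => by simpa using (e_inj h).2),
          if_neg (fun h => by simpa using (e_inj h).2)]
        norm_num
      · rw [if_neg (fun h => by simpa using (e_inj h).2),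
          if_neg (fun h => by simpa using (e_inj h).2), if_pos rfl,
          if_neg (fun h => by simpa using (e_inj h).2)]
        norm_num
      · rw [if_neg (fun h => by simpa using (e_inj h).2),
          if_neg (fun h => by simpa using (e_inj h).2),
          if_neg (fun h => by simpa using (e_inj h).2), if_pos rfl]
        norm_num
  rw [this]
  rw [Finset.card_insert_of_notMem, Finset.card_insert_of_notMem,
    Finset.card_insert_of_notMem, Finset.card_singleton]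
  · rw [Finset.mem_singleton]
    exact fun h => by simpa using (e_inj h).2
  · rw [Finset.mem_insert, Finset.mem_singleton]
    rintro (h | h)
    · simpa using (e_inj h).2
    · simpa using (e_inj h).2
  · rw [Finset.mem_insert, Finset.mem_insert, Finset.mem_singleton]
    rintro (h | h | h)
    · simpa using (e_inj h).2
    · simpa using (e_inj h).2
    · simpa using (e_inj h).2

lemma f_eq : f = X 0 - X 0 ^ 71 - X 0 ^ 3 * X 1 ^ 12 := by
  rw [f, mono_eq, mono_eq, mono_eq]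
  simp
  ring

lemma g_eq : g = X 1 ^ 3 - C (5 / 4) * X 0 ^ 12 * X 1 ^ 5 - C (41 / 200) * X 0 ^ 408 * X 1 -
    C (41 / 200) * X 1 ^ 73 := by
  rw [g, mono_eq, mono_eq, mono_eq, mono_eq]
  have h1 : (C (-5 / 4 : ℝ) : MvPolynomial (Fin 2) ℝ) = - C (5 / 4 : ℝ) := by
    rw [← C_neg]; norm_num
  have h2 : (C (-41 / 200 : ℝ) : MvPolynomial (Fin 2) ℝ) = - C (41 / 200 : ℝ) := by
    rw [← C_neg]; norm_num
  rw [h1, h2]
  simp
  ring

lemma eval_f (p : Fin 2 → ℝ) : eval p f = p 0 - p 0 ^ 71 - p 0 ^ 3 * p 1 ^ 12 := by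
  rw [f_eq]; simp

lemma eval_g (p : Fin 2 → ℝ) : eval p g =
    p 1 ^ 3 - 5 / 4 * p 0 ^ 12 * p 1 ^ 5 - 41 / 200 * p 0 ^ 408 * p 1 -
      41 / 200 * p 1 ^ 73 := by
  rw [g_eq]; simp

lemma eval_f0 (p : Fin 2 → ℝ) : eval p (pderiv 0 f) = 1 - 71 * p 0 ^ 70 -
    3 * p 0 ^ 2 * p 1 ^ 12 := by
  rw [f_eq]; simp [pderiv_X]; ring

lemma eval_f1 (p : Fin 2 → ℝ) : eval p (pderiv 1 f) = - 12 * p 0 ^ 3 * p 1 ^ 11 := by
  rw [f_eq]; simp [pderiv_X]; ring

lemma eval_g0 (p : Fin 2 → ℝ) : eval p (pderiv 0 g) = - 15 * p 0 ^ 11 * p 1 ^ 5 -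
    408 * 41 / 200 * p 0 ^ 407 * p 1 := by
  rw [g_eq]; simp [pderiv_X]; ring

lemma eval_g1 (p : Fin 2 → ℝ) : eval p (pderiv 1 g) = 3 * p 1 ^ 2 -
    25 / 4 * p 0 ^ 12 * p 1 ^ 4 - 41 / 200 * p 0 ^ 408 - 73 * 41 / 200 * p 1 ^ 72 := by
  rw [g_eq]; simp [pderiv_X]; ring

/-! ### The solutions off the axes -/

lemma sol_of_root {p : Fin 2 → ℝ} {u W : ℝ} (hu : u ≠ 0) (hW : W ≠ 0)
    (hu2 : u ≠ 1 - u) (hs : u * (1 - u) = W ^ 6) (hG : G W = 0) (hdG : dG W ≠ 0)
    (h0 : p 0 ^ 70 = u) (h1 : p 0 ^ 12 * p 1 ^ 2 = W) : IsSimpleSolution f g p := by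
  have hx : p 0 ≠ 0 := by
    rintro h
    rw [h] at h0
    norm_num at h0
    exact hu h0.symm
  have hv : p 0 ^ 2 * p 1 ^ 12 = 1 - u := by
    have : u * (p 0 ^ 2 * p 1 ^ 12) = u * (1 - u) := by
      rw [hs, ← h1, ← h0]; ring
    exact mul_left_cancel₀ hu this
  have hs2 : W ^ 12 = (u * (1 - u)) ^ 2 := by rw [hs]; ring
  have hs3 : W ^ 18 = (u * (1 - u)) ^ 3 := by rw [hs]; ring
  have hrel : W - 5 / 4 * W ^ 2 - 41 / 200 * (u ^ 6 + (1 - u) ^ 6) = 0 := by
    have := hG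
    unfold G at this
    rw [hs2, hs3, ← hs] at this
    linear_combination this
  have hder : W * dG W = W - 5 / 2 * W ^ 2 - 41 / 200 * (-36 * (u * (1 - u)) +
      108 * (u * (1 - u)) ^ 2 - 36 * (u * (1 - u)) ^ 3) := by
    rw [← hs2, ← hs3, hs]
    unfold dG
    ring
  have e420 : p 0 ^ 12 * p 0 ^ 408 = u ^ 6 := by rw [← h0]; ring
  have e72 : p 0 ^ 12 * p 1 ^ 72 = (1 - u) ^ 6 := by rw [← hv]; ring
  have e24 : p 0 ^ 12 * (p 0 ^ 12 * p 1 ^ 4) = W ^ 2 := by rw [← h1]; ring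
  refine ⟨?_, ?_, ?_⟩
  · rw [eval_f]
    have : p 0 - p 0 ^ 71 - p 0 ^ 3 * p 1 ^ 12 = p 0 * (1 - p 0 ^ 70 - p 0 ^ 2 * p 1 ^ 12) := by
      ring
    rw [this, h0, hv]
    ring
  · rw [eval_g]
    have hx12 : p 0 ^ 12 ≠ 0 := pow_ne_zero _ hx
    apply mul_left_cancel₀ hx12
    have : p 0 ^ 12 * (p 1 ^ 3 - 5 / 4 * p 0 ^ 12 * p 1 ^ 5 - 41 / 200 * p 0 ^ 408 * p 1 -
      41 / 200 * p 1 ^ 73) = p 1 * (p 0 ^ 12 * p 1 ^ 2 - 5 / 4 * (p 0 ^ 12 * (p 0 ^ 12 * p 1 ^ 4))
        - 41 / 200 * (p 0 ^ 12 * p 0 ^ 408 + p 0 ^ 12 * p 1 ^ 72)) := by ring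
    rw [this, e24, e420, e72, h1, hrel]
    ring
  · rw [eval_f0, eval_f1, eval_g0, eval_g1]
    intro hJ
    have h2 : p 0 ^ 12 * ((1 - 71 * p 0 ^ 70 - 3 * p 0 ^ 2 * p 1 ^ 12) *
        (3 * p 1 ^ 2 - 25 / 4 * p 0 ^ 12 * p 1 ^ 4 - 41 / 200 * p 0 ^ 408 -
          73 * 41 / 200 * p 1 ^ 72) -
        (- 12 * p 0 ^ 3 * p 1 ^ 11) *
        (- 15 * p 0 ^ 11 * p 1 ^ 5 - 408 * 41 / 200 * p 0 ^ 407 * p 1)) =
        (1 - 71 * p 0 ^ 70 - 3 * (p 0 ^ 2 * p 1 ^ 12)) *
        (3 * (p 0 ^ 12 * p 1 ^ 2) - 25 / 4 * (p 0 ^ 12 * (p 0 ^ 12 * p 1 ^ 4)) -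
          41 / 200 * (p 0 ^ 12 * p 0 ^ 408) -
          73 * 41 / 200 * (p 0 ^ 12 * p 1 ^ 72)) -
        (180 * (p 0 ^ 2 * p 1 ^ 12) * (p 0 ^ 12 * (p 0 ^ 12 * p 1 ^ 4)) +
          12 * 408 * 41 / 200 * (p 0 ^ 12 * p 0 ^ 408) * (p 0 ^ 2 * p 1 ^ 12)) := by ring
    rw [hJ, mul_zero, h0, hv, h1, e24, e420, e72] at h2
    have h3 : 140 * ((1 - u) - u) * (W * dG W) = 0 := by
      rw [hder]
      linear_combination - h2 - (3 * (1 - 71 * u - 3 * (1 - u)) - 140 * ((1 - u) - u)) * hrel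
    have h4 : (1 - u) - u ≠ 0 := sub_ne_zero.mpr (Ne.symm hu2)
    have h5 : 140 * ((1 - u) - u) * (W * dG W) ≠ 0 :=
      mul_ne_zero (mul_ne_zero (by norm_num) h4) (mul_ne_zero hW hdG)
    exact h5 h3

lemma exists_coords {u W : ℝ} (hu : 0 < u) (hW : 0 < W) :
    ∃ X Y : ℝ, 0 < X ∧ 0 < Y ∧ X ^ 70 = u ∧ X ^ 12 * Y ^ 2 = W := by
  have hX : 0 < u ^ (((70 : ℕ) : ℝ)⁻¹) := Real.rpow_pos_of_pos hu _
  refine ⟨u ^ (((70 : ℕ) : ℝ)⁻¹), Real.sqrt (W / (u ^ (((70 : ℕ) : ℝ)⁻¹)) ^ 12), hX, ?_, ?_, ?_⟩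
  · exact Real.sqrt_pos.mpr (div_pos hW (pow_pos hX 12))
  · exact Real.rpow_inv_natCast_pow hu.le (by norm_num)
  · rw [Real.sq_sqrt (div_pos hW (pow_pos hX 12)).le]
    field_simp

/-- The sign attached to a Boolean. -/
def sg (b : Bool) : ℝ := if b then 1 else -1

lemma sg_sq (b : Bool) : sg b ^ 2 = 1 := by cases b <;> norm_num [sg]

lemma sg_inj {a b : Bool} {x y : ℝ} (hx : 0 < x) (hy : 0 < y) (h : sg a * x = sg b * y) :
    a = b := by
  cases a <;> cases b <;> simp [sg] at h ⊢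
  · linarith
  · linarith

lemma off_axes : ∃ P : Fin 4 × Bool × Bool × Bool → (Fin 2 → ℝ), Function.Injective P ∧
    ∀ i, IsSimpleSolution f g (P i) ∧ P i 0 ≠ 0 ∧ P i 1 ≠ 0 := by
  obtain ⟨W, hWinj, hW⟩ := four_roots
  -- the first coordinate `u` on the line `u + v = 1`
  have hu : ∀ i : Fin 4, ∀ b : Bool, ∃ u : ℝ, 0 < u ∧ u * (1 - u) = W i ^ 6 ∧
      (if b then u < 1 / 2 else 1 / 2 < u) := by
    intro i b
    obtain ⟨h1, h2, -, -⟩ := hW i
    have h3 : 0 < W i ^ 6 := pow_pos h1 6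
    set r := Real.sqrt (1 - 4 * W i ^ 6) with hr
    have h4 : 0 < 1 - 4 * W i ^ 6 := by linarith
    have hr0 : 0 < r := Real.sqrt_pos.mpr h4
    have hr2 : r ^ 2 = 1 - 4 * W i ^ 6 := Real.sq_sqrt h4.le
    have hr1 : r < 1 := by nlinarith
    cases b
    · refine ⟨(1 + r) / 2, by linarith, ?_, ?_⟩
      · linear_combination - (1 / 4 : ℝ) * hr2
      · simp; linarith
    · refine ⟨(1 - r) / 2, by linarith, ?_, ?_⟩
      · linear_combination - (1 / 4 : ℝ) * hr2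
      · simp; linarith
  choose u hu0 hu1 hu2 using hu
  have hXY : ∀ i : Fin 4, ∀ b : Bool, ∃ X Y : ℝ, 0 < X ∧ 0 < Y ∧ X ^ 70 = u i b ∧
      X ^ 12 * Y ^ 2 = W i := fun i b => exists_coords (hu0 i b) (hW i).1
  choose X Y hX hY hXu hXY using hXY
  refine ⟨fun t => ![sg t.2.2.1 * X t.1 t.2.1, sg t.2.2.2 * Y t.1 t.2.1], ?_, ?_⟩
  · rintro ⟨i, b, s, t⟩ ⟨i', b', s', t'⟩ h
    have e0 : sg s * X i b = sg s' * X i' b' := congrFun h 0
    have e1 : sg t * Y i b = sg t' * Y i' b' := congrFun h 1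
    have hs : s = s' := sg_inj (hX _ _) (hX _ _) e0
    have ht : t = t' := sg_inj (hY _ _) (hY _ _) e1
    subst hs ht
    have hsg : ∀ b : Bool, sg b ≠ 0 := by intro b; cases b <;> norm_num [sg]
    have e2 : X i b = X i' b' := mul_left_cancel₀ (hsg s) e0
    have e3 : Y i b = Y i' b' := mul_left_cancel₀ (hsg t) e1
    have e4 : W i = W i' := by rw [← hXY i b, ← hXY i' b', e2, e3]
    have e5 : i = i' := hWinj e4
    subst e5
    have e6 : u i b = u i b' := by rw [← hXu i b, ← hXu i b', e2]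
    have e7 : b = b' := by
      have k1 := hu2 i b
      have k2 := hu2 i b'
      cases b <;> cases b' <;> simp at k1 k2 ⊢ <;> linarith
    subst e7
    rfl
  · rintro ⟨i, b, s, t⟩
    have hsg : ∀ b : Bool, sg b ≠ 0 := by intro b; cases b <;> norm_num [sg]
    refine ⟨?_, ?_, ?_⟩
    · refine sol_of_root (u := u i b) (W := W i) (hu0 i b).ne' (hW i).1.ne' ?_ (hu1 i b)
        (hW i).2.2.1 (hW i).2.2.2 ?_ ?_
      · have k1 := hu2 i b
        cases b <;> simp at k1 <;> intro h <;> linarith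
      · show (sg s * X i b) ^ 70 = u i b
        rw [← hXu i b, mul_pow, show (70 : ℕ) = 2 * 35 from rfl, pow_mul, sg_sq, one_pow, one_mul]
      · show (sg s * X i b) ^ 12 * (sg t * Y i b) ^ 2 = W i
        rw [← hXY i b, mul_pow, mul_pow, show (12 : ℕ) = 2 * 6 from rfl, pow_mul, sg_sq, sg_sq,
          one_pow, one_mul, one_mul]
    · exact mul_ne_zero (hsg s) (hX i b).ne'
    · exact mul_ne_zero (hsg t) (hY i b).ne'

/-! ### The solutions on the axes -/

lemma on_axes : ∃ Q : Bool × Bool → (Fin 2 → ℝ), Function.Injective Q ∧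
    ∀ i, IsSimpleSolution f g (Q i) ∧ (Q i 0 = 0 ∨ Q i 1 = 0) := by
  obtain ⟨r, hr0, hr⟩ : ∃ r : ℝ, 0 < r ∧ r ^ 70 = 200 / 41 := by
    refine ⟨(200 / 41 : ℝ) ^ (((70 : ℕ) : ℝ)⁻¹), Real.rpow_pos_of_pos (by norm_num) _, ?_⟩
    exact Real.rpow_inv_natCast_pow (by norm_num) (by norm_num)
  refine ⟨fun t => if t.1 then ![sg t.2, 0] else ![0, sg t.2 * r], ?_, ?_⟩
  · rintro ⟨a, b⟩ ⟨a', b'⟩ h
    have h0 := congrFun h 0
    have h1 := congrFun h 1
    cases a <;> cases b <;> cases a' <;> cases b' <;> simp [sg] at h0 h1 ⊢ <;> linarith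
  · rintro ⟨a, b⟩
    have hb70 : sg b ^ 70 = 1 := by
      rw [show (70 : ℕ) = 2 * 35 from rfl, pow_mul, sg_sq, one_pow]
    cases a
    · refine ⟨⟨?_, ?_, ?_⟩, Or.inl rfl⟩
      · rw [eval_f]; simp
      · rw [eval_g]
        have e : (sg b * r) ^ 70 = 200 / 41 := by rw [mul_pow, hb70, hr, one_mul]
        simp
        linear_combination (- 41 / 200 * (sg b * r) ^ 3) * e
      · rw [eval_f0, eval_f1, eval_g0, eval_g1]
        have e : (sg b * r) ^ 70 = 200 / 41 := by rw [mul_pow, hb70, hr, one_mul]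
        have e2 : (sg b * r) ^ 2 = r ^ 2 := by rw [mul_pow, sg_sq, one_mul]
        have e3 : (sg b * r) ^ 72 = 200 / 41 * r ^ 2 := by
          rw [← e, ← e2]; ring
        simp
        rw [e2, e3]
        intro h
        have : r ^ 2 = 0 := by linarith
        exact (pow_pos hr0 2).ne' this
    · refine ⟨⟨?_, ?_, ?_⟩, Or.inr rfl⟩
      · rw [eval_f]
        simp
        linear_combination - sg b * hb70
      · rw [eval_g]; simp
      · rw [eval_f0, eval_f1, eval_g0, eval_g1]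
        have hb : sg b ≠ 0 := by
          intro h
          rw [h] at hb70
          norm_num at hb70
        simp
        rw [hb70]
        exact ⟨by norm_num, hb⟩

/-- **The modified Kouchnirenko bound fails for `(m₁, m₂) = (3, 4)`.**
The system `x - x^71 - x^3 y^12 = 0`,
`y^3 - (5/4) x^12 y^5 - (41/200) x^408 y - (41/200) y^73 = 0` of a polynomial with exactly three
monomials and one with exactly four has at least `36` simple real solutions,
while `(2 * 3 - 1) * (2 * 4 - 1) = 35`. -/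
theorem counterexample : f.support.card = 3 ∧ g.support.card = 4 ∧
    ∃ S : Finset (Fin 2 → ℝ), S.card = 36 ∧ ∀ p ∈ S, IsSimpleSolution f g p := by
  refine ⟨f_support, g_support, ?_⟩
  obtain ⟨P, hP, hP2⟩ := off_axes
  obtain ⟨Q, hQ, hQ2⟩ := on_axes
  classical
  refine ⟨Finset.univ.image (Sum.elim P Q), ?_, ?_⟩
  · rw [Finset.card_image_of_injective]
    · simp
    · refine Function.Injective.sumElim hP hQ ?_
      intro a b h
      rcases (hQ2 b).2 with h0 | h0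
      · exact (hP2 a).2.1 (by rw [h]; exact h0)
      · exact (hP2 a).2.2 (by rw [h]; exact h0)
  · intro p hp
    rw [Finset.mem_image] at hp
    obtain ⟨i, -, rfl⟩ := hp
    rcases i with i | i
    · exact (hP2 i).1
    · exact (hQ2 i).1

/-- **Disproof of the modified Kouchnirenko bound.**  First part: there are two real polynomials
in two variables, one with exactly `3` monomials and one with exactly `4` monomials, whose system
has `36 > 35 = (2 * 3 - 1) * (2 * 4 - 1)` simple real solutions.  Second part: hence it is false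
that for all `m₁, m₂ ≥ 1` every system with `m₁` and `m₂` monomials has at most
`(2 * m₁ - 1) * (2 * m₂ - 1)` simple real solutions. -/
theorem result :
    (∃ f g : MvPolynomial (Fin 2) ℝ, f.support.card = 3 ∧ g.support.card = 4 ∧
      ∃ S : Finset (Fin 2 → ℝ), S.card = 36 ∧ (2 * 3 - 1) * (2 * 4 - 1) < S.card ∧
        ∀ p ∈ S, IsSimpleSolution f g p) ∧
    ¬ (∀ m₁ m₂ : ℕ, 1 ≤ m₁ → 1 ≤ m₂ → ∀ f g : MvPolynomial (Fin 2) ℝ,
      f.support.card = m₁ → g.support.card = m₂ →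
      ∀ S : Finset (Fin 2 → ℝ), (∀ p ∈ S, IsSimpleSolution f g p) →
        S.card ≤ (2 * m₁ - 1) * (2 * m₂ - 1)) := by
  obtain ⟨h1, h2, S, h3, h4⟩ := counterexample
  refine ⟨⟨f, g, h1, h2, S, h3, by rw [h3]; norm_num, h4⟩, ?_⟩
  intro h
  have := h 3 4 (by norm_num) (by norm_num) f g h1 h2 S h4
  rw [h3] at this
  norm_num at this

end Pool.Agent.Results.MP_172a5c_ag.ModifiedKouchnirenkoFails
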